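import Pool.Agent.H490Z.SH.Main

set_option autoImplicit false

namespace Pool.Agent.Results.MP_1f1ec9_gt.BorelNotSigmaHom

/-- A Borel, hence analytic, subspace of the Hilbert cube that is not the union of countably many
homogeneous subspaces. -/
theorem result : ∃ X : Set (ℕ → unitInterval),
    @MeasurableSet _ (borel (ℕ → unitInterval)) X ∧
    (∃ f : (ℕ → ℕ) → (ℕ → unitInterval), Continuous f ∧ Set.range f = X) ∧
    ¬ ∃ Y : ℕ → Set (ℕ → unitInterval), (⋃ n, Y n) = X ∧
      ∀ n, ∀ x y : Y n, ∃ h : Y n ≃ₜ Y n, h x = y := by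
  obtain ⟨X, h1, h2, h3⟩ := Pool.Agent.H490Z.SH.main
  refine ⟨X, by rwa [← BorelSpace.measurable_eq], ?_, h3⟩
  have := h1.analyticSet
  rw [MeasureTheory.AnalyticSet] at this
  exact this.resolve_left h2.ne_empty

end Pool.Agent.Results.MP_1f1ec9_gt.BorelNotSigmaHom
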